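import Pool.Agent.Run7.h291.WG.Stm3

set_option autoImplicit false

/-!
# The amount of high values (T18, part CNT)

`t_CNT : S_LLN → S_CNT`: test functions `exp (c x)` times a trapezoid, comparison of the amount with the local weights,
the values far above the level (by the mean of `log⁺ (exp (-y) |ζ|)`, helper701's `MX`), and the theorem.
-/

namespace Run7.h701.WG3

open Finset Filter MeasureTheory Topology
open Run7.h291.WG

/-- the trapezoid: `0` for `x ≤ s`, `1` on `[s + η, R]`, `0` for `x ≥ R + 1` -/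
noncomputable def tz (s η R x : ℝ) : ℝ := max 0 (min 1 (min ((x - s) / η) (R + 1 - x)))

lemma tz_cont (s η R : ℝ) : Continuous (tz s η R) := by
  unfold tz
  refine continuous_const.max (continuous_const.min (Continuous.min ?_ ?_))
  · exact (continuous_id.sub continuous_const).div_const _
  · exact continuous_const.sub continuous_id

lemma tz_nn (s η R x : ℝ) : 0 ≤ tz s η R x := le_max_left _ _

lemma tz_le (s η R x : ℝ) : tz s η R x ≤ 1 := max_le zero_le_one (min_le_left _ _)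

lemma tz_zero_left {s η R x : ℝ} (hη : 0 < η) (h : x ≤ s) : tz s η R x = 0 := by
  unfold tz
  refine max_eq_left ((min_le_right _ _).trans ((min_le_left _ _).trans ?_))
  exact div_nonpos_of_nonpos_of_nonneg (by linarith) hη.le

lemma tz_zero_right {s η R x : ℝ} (h : R + 1 ≤ x) : tz s η R x = 0 := by
  unfold tz
  exact max_eq_left ((min_le_right _ _).trans ((min_le_right _ _).trans (by linarith)))

lemma tz_one {s η R x : ℝ} (hη : 0 < η) (h1 : s + η ≤ x) (h2 : x ≤ R) : tz s η R x = 1 := by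
  unfold tz
  have h3 : 1 ≤ (x - s) / η := by
    rw [le_div_iff₀ hη]
    linarith
  rw [min_eq_left (le_min h3 (by linarith)), max_eq_right zero_le_one]

/-- the test function: `exp (c x)` times the trapezoid -/
noncomputable def gz (c s η R x : ℝ) : ℝ := Real.exp (c * x) * tz s η R x

lemma gz_cont (c s η R : ℝ) : Continuous (gz c s η R) := by
  unfold gz
  exact (Real.continuous_exp.comp (continuous_const.mul continuous_id)).mul (tz_cont s η R)

lemma gz_nn (c s η R x : ℝ) : 0 ≤ gz c s η R x := mul_nonneg (Real.exp_pos _).le (tz_nn _ _ _ _)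

lemma gz_zero {c s η R x : ℝ} (hη : 0 < η) (h : x ∉ Set.Ioc s (R + 1)) : gz c s η R x = 0 := by
  unfold gz
  rcases le_or_gt x s with h1 | h1
  · rw [tz_zero_left hη h1, mul_zero]
  · rcases le_or_gt x (R + 1) with h2 | h2
    · exact absurd ⟨h1, h2⟩ h
    · rw [tz_zero_right h2.le, mul_zero]

lemma gz_TF {c s η R : ℝ} (hη : 0 < η) : TF (gz c s η R) (|s| + |R| + 2) (Real.exp (|c| * (|s| + |R| + 2))) := by
  have hz : ∀ x, |s| + |R| + 2 ≤ |x| → gz c s η R x = 0 := by
    intro x hx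
    refine gz_zero hη fun hmem => ?_
    have h1 := neg_abs_le s
    have h2 := le_abs_self R
    have h3 : |x| ≤ |s| + |R| + 1 := by
      rw [abs_le]
      exact ⟨by linarith [hmem.1, abs_nonneg R], by linarith [hmem.2, abs_nonneg s]⟩
    linarith
  refine ⟨gz_cont c s η R, gz_nn c s η R, fun x => ?_, hz, by linarith [abs_nonneg s, abs_nonneg R], (Real.exp_pos _).le⟩
  rcases le_or_gt (|s| + |R| + 2) |x| with h | h
  · rw [hz x h]
    exact (Real.exp_pos _).le
  · unfold gz
    calc Real.exp (c * x) * tz s η R x ≤ Real.exp (c * x) * 1 :=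
          mul_le_mul_of_nonneg_left (tz_le _ _ _ _) (Real.exp_pos _).le
      _ ≤ Real.exp (|c| * (|s| + |R| + 2)) := by
          rw [mul_one]
          refine Real.exp_le_exp.2 ((le_abs_self _).trans ?_)
          rw [abs_mul]
          exact mul_le_mul_of_nonneg_left h.le (abs_nonneg _)

lemma exp_int {c : ℝ} (hc : c ≠ 0) (p q : ℝ) : ∫ x in p..q, Real.exp (c * x) = (Real.exp (c * q) - Real.exp (c * p)) / c := by
  rw [intervalIntegral.integral_comp_mul_left (fun x => Real.exp x) hc, integral_exp, smul_eq_mul]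
  field_simp

lemma gz_int_eq {c s η R : ℝ} (hη : 0 < η) (h : s ≤ R + 1) : ∫ x, gz c s η R x = ∫ x in s..(R + 1), gz c s η R x := by
  rw [intervalIntegral.integral_of_le h]
  exact (setIntegral_eq_integral_of_forall_compl_eq_zero fun x hx => gz_zero hη hx).symm

lemma gz_int_le {c s η R : ℝ} (hη : 0 < η) (h : s ≤ R + 1) (hc : c ≠ 0) :
    ∫ x, gz c s η R x ≤ (Real.exp (c * (R + 1)) - Real.exp (c * s)) / c := by
  rw [gz_int_eq hη h, ← exp_int hc]
  refine intervalIntegral.integral_mono_on h ((gz_cont c s η R).intervalIntegrable _ _)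
    ((Real.continuous_exp.comp (continuous_const.mul continuous_id)).intervalIntegrable _ _) fun x _ => ?_
  unfold gz
  have := mul_le_mul_of_nonneg_left (tz_le s η R x) (Real.exp_pos (c * x)).le
  rw [mul_one] at this
  exact this

lemma gz_int_ge {c s η R : ℝ} (hη : 0 < η) (h : s + η ≤ R) (hc : c ≠ 0) :
    (Real.exp (c * R) - Real.exp (c * (s + η))) / c ≤ ∫ x, gz c s η R x := by
  rw [gz_int_eq hη (by linarith), ← exp_int hc]
  have hi : ∀ a b : ℝ, IntervalIntegrable (gz c s η R) volume a b := fun a b => (gz_cont c s η R).intervalIntegrable a b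
  have e1 := intervalIntegral.integral_add_adjacent_intervals (hi s (s + η)) (hi (s + η) (R + 1))
  have e2 := intervalIntegral.integral_add_adjacent_intervals (hi (s + η) R) (hi R (R + 1))
  have n1 : 0 ≤ ∫ x in s..(s + η), gz c s η R x :=
    intervalIntegral.integral_nonneg (by linarith) fun x _ => gz_nn _ _ _ _ _
  have n2 : 0 ≤ ∫ x in R..(R + 1), gz c s η R x :=
    intervalIntegral.integral_nonneg (by linarith) fun x _ => gz_nn _ _ _ _ _
  have e3 : ∫ x in (s + η)..R, Real.exp (c * x) = ∫ x in (s + η)..R, gz c s η R x := by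
    refine intervalIntegral.integral_congr fun x hx => ?_
    rw [Set.uIcc_of_le h] at hx
    show Real.exp (c * x) = gz c s η R x
    unfold gz
    rw [tz_one hη hx.1 hx.2, mul_one]
  rw [e3]
  linarith

open Pool.Agent.N748.MG Pool.Agent.N748.MJ Run7.h291.WN Run7.h291.WL Run7.h701.MX

/-- the factor of the local weight -/
noncomputable def bc (V δ y : ℝ) : ℝ := Run7.h291.WL.sq δ * ((2 * δ) ^ (V ^ 2) / akR V) * Real.exp (2 * V * y)

/-- the ratio of the normalizations -/
noncomputable def rho (V δ : ℝ) : ℝ := akR V / 2 ^ (V ^ 2) * (√(Real.log (1 / δ)) / Run7.h291.WL.sq δ)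

lemma sq_pos' {δ : ℝ} (h0 : 0 < δ) (h1 : δ ≤ 1 / 16) : 0 < Run7.h291.WL.sq δ := by
  unfold Run7.h291.WL.sq
  refine Real.sqrt_pos.2 (mul_pos Real.pi_pos (Real.log_pos ?_))
  rw [lt_div_iff₀ (by positivity)]
  linarith

lemma bc_pos {V δ y : ℝ} (h0 : 0 < δ) (h1 : δ ≤ 1 / 16) : 0 < bc V δ y := by
  unfold bc
  have := sq_pos' h0 h1
  have := akp V
  have : 0 < (2 * δ) ^ (V ^ 2) := Real.rpow_pos_of_pos (by linarith) _
  positivity

/-- the normalization -/
lemma W_eq {V a δ : ℝ} (hV : 0 < V) (h0 : 0 < δ) (h1 : δ ≤ 1 / 16) :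
    δ ^ (-(V ^ 2 - 1)) = rho V δ * (δ * Real.exp (-(2 * V * a))) * bc V δ (lev V δ + a) := by
  have hG := lev_G (a := a) hV h0 h1
  have hs := sq_pos' h0 h1
  have ha := akp V
  have h2 : 0 < (2:ℝ) ^ (V ^ 2) := Real.rpow_pos_of_pos two_pos _
  have e1 : (2 * δ) ^ (V ^ 2) = 2 ^ (V ^ 2) * δ ^ (V ^ 2) := Real.mul_rpow two_pos.le h0.le
  have e2 : Real.exp (-(2 * V * a)) * Real.exp (2 * V * a) = 1 := by
    rw [← Real.exp_add]
    simp
  have e3 : δ * δ ^ (-(V ^ 2)) = δ ^ (-(V ^ 2 - 1)) := by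
    rw [show -(V ^ 2 - 1) = 1 + -(V ^ 2) by ring, Real.rpow_add h0, Real.rpow_one]
  have e4 : rho V δ * (δ * Real.exp (-(2 * V * a))) * bc V δ (lev V δ + a) =
      δ * Real.exp (-(2 * V * a)) * (√(Real.log (1 / δ)) * Real.exp (2 * V * (lev V δ + a)) * δ ^ (V ^ 2)) := by
    unfold rho bc
    rw [e1]
    field_simp
  rw [e4, hG, ← e3]
  calc δ * δ ^ (-(V ^ 2)) = δ * (Real.exp (-(2 * V * a)) * Real.exp (2 * V * a)) * δ ^ (-(V ^ 2)) := by
        rw [e2, mul_one]
    _ = _ := by ring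

/-- the local weight of `gz` -/
lemma FS_gz {V c s η R δ y u : ℝ} (hm : 0 < mz δ u) : FS V (gz c s η R) δ y u =
    Run7.h291.WL.sq δ * ((2 * δ) ^ (V ^ 2) / akR V) * Real.exp (-(c * y)) * mz δ u ^ (2 * V + c) *
      tz s η R (Real.log (mz δ u) - y) := by
  unfold Run7.h291.WG.FS Zk gz
  have h1 : Real.exp (c * (Real.log (mz δ u) - y)) = Real.exp (-(c * y)) * mz δ u ^ c := by
    rw [Real.rpow_def_of_pos hm, ← Real.exp_add]
    congr 1
    ring
  rw [h1, Real.rpow_add hm]
  ring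

lemma FS_zero' {V : ℝ} (hV : 0 < V) {g : ℝ → ℝ} {δ y u : ℝ} (hm : mz δ u = 0) : FS V g δ y u = 0 :=
  FS_zero_of hV hm

lemma FS_lo {V η R δ y u : ℝ} (hV : 0 < V) (hη : 0 < η) (h0 : 0 < δ) (h1 : δ ≤ 1 / 16) :
    FS V (gz (-(2 * V)) 0 η R) δ y u ≤ Set.indicator {u : ℝ | Real.exp y ≤ mz δ u} (fun _ => bc V δ y) u := by
  rcases (TMA.mz_nn δ u).eq_or_lt with hm | hm
  · rw [FS_zero' hV hm.symm]
    exact Set.indicator_nonneg (fun _ _ => (bc_pos h0 h1).le) _
  · have e1 : FS V (gz (-(2 * V)) 0 η R) δ y u = bc V δ y * tz 0 η R (Real.log (mz δ u) - y) := by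
      rw [FS_gz hm, add_neg_cancel, Real.rpow_zero, mul_one, neg_mul, neg_neg]
      rfl
    rw [e1]
    by_cases h : Real.exp y ≤ mz δ u
    · rw [Set.indicator_of_mem (show u ∈ {u : ℝ | Real.exp y ≤ mz δ u} from h)]
      have := mul_le_mul_of_nonneg_left (tz_le 0 η R (Real.log (mz δ u) - y)) (bc_pos (V := V) (y := y) h0 h1).le
      rwa [mul_one] at this
    · rw [Set.indicator_of_notMem (show u ∉ {u : ℝ | Real.exp y ≤ mz δ u} from h)]
      push Not at h
      have h2 : Real.log (mz δ u) < y := by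
        rw [← Real.log_exp y]
        exact Real.log_lt_log hm h
      rw [tz_zero_left hη (by linarith), mul_zero]

lemma FS_hi {V η R δ y u : ℝ} (hη : 0 < η) (h0 : 0 < δ) (h1 : δ ≤ 1 / 16) :
    Set.indicator {u : ℝ | Real.exp y ≤ mz δ u} (fun _ => bc V δ y) u ≤
      FS V (gz (-(2 * V)) (-η) η R) δ y u + Set.indicator {u : ℝ | Real.exp (y + R) ≤ mz δ u} (fun _ => bc V δ y) u := by
  have hF : 0 ≤ FS V (gz (-(2 * V)) (-η) η R) δ y u := FS_nn (gz_nn _ _ _ _) h0.le _ _
  have hI : 0 ≤ Set.indicator {u : ℝ | Real.exp (y + R) ≤ mz δ u} (fun _ => bc V δ y) u :=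
    Set.indicator_nonneg (fun _ _ => (bc_pos h0 h1).le) _
  by_cases h : Real.exp y ≤ mz δ u
  · rw [Set.indicator_of_mem (show u ∈ {u : ℝ | Real.exp y ≤ mz δ u} from h)]
    by_cases h' : Real.exp (y + R) ≤ mz δ u
    · rw [Set.indicator_of_mem (show u ∈ {u : ℝ | Real.exp (y + R) ≤ mz δ u} from h')]
      linarith
    · push Not at h'
      have hm : 0 < mz δ u := (Real.exp_pos _).trans_le h
      have h2 : y ≤ Real.log (mz δ u) := by
        rw [← Real.log_exp y]
        exact Real.log_le_log (Real.exp_pos _) h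
      have h3 : Real.log (mz δ u) ≤ y + R := by
        rw [← Real.log_exp (y + R)]
        exact Real.log_le_log hm h'.le
      have e1 : FS V (gz (-(2 * V)) (-η) η R) δ y u = bc V δ y * tz (-η) η R (Real.log (mz δ u) - y) := by
        rw [FS_gz hm, add_neg_cancel, Real.rpow_zero, mul_one, neg_mul, neg_neg]
        rfl
      rw [tz_one hη (by linarith) (by linarith), mul_one] at e1
      rw [e1]
      linarith
  · rw [Set.indicator_of_notMem (show u ∉ {u : ℝ | Real.exp y ≤ mz δ u} from h)]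
    linarith

/-- the average times the length -/
lemma Av_mul {l : ℝ} (hl : 0 < l) (f : ℝ → ℝ) (t : ℝ) : l * Av l f t = ∫ u in t..(t + l), f u := by
  unfold Av
  rw [intervalIntegral.integral_comp_add_left, add_zero]
  field_simp

lemma ind_int {V a δ t b : ℝ} (h1 : δ ≤ 1 / 16) (hW : 0 < δ ^ (-(V ^ 2 - 1))) :
    ∫ u in t..(t + δ ^ (-(V ^ 2 - 1))), Set.indicator {u : ℝ | Real.exp (lev V δ + a) ≤ mz δ u} (fun _ => b) u =
      b * volume.real (LV V a δ t) := by
  have hm : MeasurableSet {u : ℝ | Real.exp (lev V δ + a) ≤ mz δ u} :=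
    measurableSet_le measurable_const (TMA.cont h1).measurable
  rw [intervalIntegral.integral_of_le (by linarith), ← integral_Icc_eq_integral_Ioc, setIntegral_indicator hm,
    setIntegral_const, smul_eq_mul, mul_comm]
  rfl

lemma ind_ii {δ y t s b : ℝ} (h1 : δ ≤ 1 / 16) :
    IntervalIntegrable (Set.indicator {u : ℝ | Real.exp y ≤ mz δ u} (fun _ => b)) volume t s := by
  have hm : MeasurableSet {u : ℝ | Real.exp y ≤ mz δ u} :=
    measurableSet_le measurable_const (TMA.cont h1).measurable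
  rw [intervalIntegrable_iff]
  exact (integrableOn_const (by simp [Set.uIoc])).indicator hm

/-- the amount is at least the integral of the lower weight -/
lemma amt_lo {V η R δ a t : ℝ} (hV : 0 < V) (hη : 0 < η) (h0 : 0 < δ) (h1 : δ ≤ 1 / 16) :
    rho V δ * (δ * Real.exp (-(2 * V * a))) * Av (δ ^ (-(V ^ 2 - 1))) (fun u =>
      FS V (gz (-(2 * V)) 0 η R) δ (lev V δ + a) u) t ≤ volume.real (LV V a δ t) := by
  have hW : 0 < δ ^ (-(V ^ 2 - 1)) := Real.rpow_pos_of_pos h0 _
  have hb := bc_pos (V := V) (y := lev V δ + a) h0 h1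
  have hc : Continuous fun u => FS V (gz (-(2 * V)) 0 η R) δ (lev V δ + a) u :=
    FS_cont hV (gz_cont _ _ _ _) (B := 0) (fun x hx => gz_zero hη fun h => absurd h.1 (not_lt.2 hx)) h1 _
  have h2 : ∫ u in t..(t + δ ^ (-(V ^ 2 - 1))), FS V (gz (-(2 * V)) 0 η R) δ (lev V δ + a) u ≤
      bc V δ (lev V δ + a) * volume.real (LV V a δ t) := by
    rw [← ind_int h1 hW]
    exact intervalIntegral.integral_mono_on (by linarith) (hc.intervalIntegrable _ _) (ind_ii h1) fun u _ =>
      FS_lo hV hη h0 h1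
  rw [← Av_mul hW] at h2
  have h3 := W_eq (a := a) hV h0 h1
  set A := Av (δ ^ (-(V ^ 2 - 1))) (fun u => FS V (gz (-(2 * V)) 0 η R) δ (lev V δ + a) u) t with hA
  rw [h3] at h2
  have h4 : bc V δ (lev V δ + a) * (rho V δ * (δ * Real.exp (-(2 * V * a))) * A) ≤
      bc V δ (lev V δ + a) * volume.real (LV V a δ t) := by
    refine le_trans (le_of_eq ?_) h2
    ring
  exact le_of_mul_le_mul_left h4 hb

/-- the amount is at most the integral of the upper weight plus the amount far above -/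
lemma amt_hi {V η R δ a t : ℝ} (hV : 0 < V) (hη : 0 < η) (h0 : 0 < δ) (h1 : δ ≤ 1 / 16) :
    volume.real (LV V a δ t) ≤ rho V δ * (δ * Real.exp (-(2 * V * a))) * Av (δ ^ (-(V ^ 2 - 1))) (fun u =>
      FS V (gz (-(2 * V)) (-η) η R) δ (lev V δ + a) u) t + volume.real (LV V (a + R) δ t) := by
  have hW : 0 < δ ^ (-(V ^ 2 - 1)) := Real.rpow_pos_of_pos h0 _
  have hb := bc_pos (V := V) (y := lev V δ + a) h0 h1
  have hc : Continuous fun u => FS V (gz (-(2 * V)) (-η) η R) δ (lev V δ + a) u :=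
    FS_cont hV (gz_cont _ _ _ _) (B := -η) (fun x hx => gz_zero hη fun h => absurd h.1 (not_lt.2 hx)) h1 _
  have h2 : bc V δ (lev V δ + a) * volume.real (LV V a δ t) ≤
      (∫ u in t..(t + δ ^ (-(V ^ 2 - 1))), FS V (gz (-(2 * V)) (-η) η R) δ (lev V δ + a) u) +
      bc V δ (lev V δ + a) * volume.real (LV V (a + R) δ t) := by
    rw [← ind_int h1 hW, ← ind_int h1 hW, ← intervalIntegral.integral_add (hc.intervalIntegrable _ _) (ind_ii h1)]
    refine intervalIntegral.integral_mono_on (by linarith) (ind_ii h1) ((hc.intervalIntegrable _ _).add (ind_ii h1))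
      fun u _ => ?_
    have := FS_hi (V := V) (R := R) (y := lev V δ + a) (u := u) hη h0 h1
    rw [add_assoc] at this
    exact this
  rw [← Av_mul hW] at h2
  have h3 := W_eq (a := a) hV h0 h1
  set A := Av (δ ^ (-(V ^ 2 - 1))) (fun u => FS V (gz (-(2 * V)) (-η) η R) δ (lev V δ + a) u) t with hA
  rw [h3] at h2
  have h4 : bc V δ (lev V δ + a) * volume.real (LV V a δ t) ≤
      bc V δ (lev V δ + a) * (rho V δ * (δ * Real.exp (-(2 * V * a))) * A + volume.real (LV V (a + R) δ t)) := by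
    refine h2.trans (le_of_eq ?_)
    ring
  exact le_of_mul_le_mul_left h4 hb

lemma root_le {L : ℝ} (h : 16 ≤ L) : L ^ ((1:ℝ) / 4) ≤ L / 4 := by
  have h1 : L ^ ((1:ℝ) / 4) ≤ L ^ ((1:ℝ) / 2) := Real.rpow_le_rpow_of_exponent_le (by linarith) (by norm_num)
  rw [← Real.sqrt_eq_rpow] at h1
  refine h1.trans (Real.sqrt_le_iff.2 ⟨by linarith, ?_⟩)
  nlinarith

/-- conditions on `log (1/δ)` -/
lemma ofL {Q : ℝ → Prop} (h : ∀ᶠ l : ℝ in atTop, Q l) : Ev fun _ δ => Q (Real.log (1 / δ)) := by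
  obtain ⟨l0, hl0⟩ := eventually_atTop.1 h
  refine (Ev.of_le (show 0 < Real.exp (-l0) from Real.exp_pos _)).mono ?_
  intro X δ _ h0 _ hδ
  refine hl0 _ ?_
  rw [Real.le_log_iff_exp_le (by positivity), le_div_iff₀ h0]
  calc Real.exp l0 * δ ≤ Real.exp l0 * Real.exp (-l0) := mul_le_mul_of_nonneg_left hδ (Real.exp_pos _).le
    _ = 1 := by rw [← Real.exp_add, add_neg_cancel, Real.exp_zero]

/-- the total of `log⁺` over an interval -/
lemma plog_int {z X δ B : ℝ} (h1 : δ ≤ 1 / 16) (hX : 0 ≤ X) (hB : 0 ≤ B)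
    (h : ∫⁻ t in Set.Ioo 0 X, ENNReal.ofReal (Real.posLog ‖((Real.exp (-z) : ℝ) : ℂ) *
      riemannZeta (1 / 2 + δ + t * Complex.I)‖) ≤ ENNReal.ofReal B) :
    ∫ t in (0:ℝ)..X, Real.posLog (Real.exp (-z) * mz δ t) ≤ B := by
  have hc : Continuous fun t => Real.posLog (Real.exp (-z) * mz δ t) :=
    Real.continuous_posLog.comp (continuous_const.mul (TMA.cont h1))
  rw [intervalIntegral.integral_of_le hX, integral_Ioc_eq_integral_Ioo,
    integral_eq_lintegral_of_nonneg_ae (Filter.Eventually.of_forall fun _ => Real.posLog_nonneg)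
      hc.aestronglyMeasurable]
  refine ENNReal.toReal_le_of_le_ofReal hB ?_
  refine le_trans (le_of_eq ?_) h
  refine lintegral_congr fun t => ?_
  rw [nrm]

/-- the values far above the level do not count -/
theorem high {V : ℝ} (hV : 1 < V) {ε : ℝ} (hε : 0 < ε) : ∃ R0 : ℝ, ∀ R : ℝ, R0 ≤ R → Ev fun X δ => ∀ a : ℝ, a ≤ 0 →
    -(Real.log (1 / δ) ^ ((1:ℝ) / 4) / 2) ≤ a →
    volume {t : ℝ | 0 ≤ t ∧ t ≤ X ∧ ε < volume.real (LV V (a + R) δ t) / (δ * Real.exp (-(2 * V * a)))} ≤
      ENNReal.ofReal (ε * X) := by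
  have hV0 : 0 < V := by linarith
  obtain ⟨C, hC, E0⟩ := mean_log hV
  set q : ℝ := ε ^ 2 / (4 * C) with hq
  have hq0 : 0 < q := by positivity
  refine ⟨max 1 (1 - Real.log q / (2 * V)), fun R hR => ?_⟩
  have hR1 : 1 ≤ R := (le_max_left _ _).trans hR
  have hR2 : Real.exp (-(2 * V * (R - 1))) ≤ q := by
    have h2 := (le_max_right _ _).trans hR
    have h3 : -(Real.log q) ≤ 2 * V * (R - 1) := by
      have h4 : -(Real.log q / (2 * V)) ≤ R - 1 := by linarith
      have h5 := mul_le_mul_of_nonneg_left h4 (show 0 ≤ 2 * V by positivity)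
      refine le_trans (le_of_eq ?_) h5
      field_simp
    calc Real.exp (-(2 * V * (R - 1))) ≤ Real.exp (Real.log q) := Real.exp_le_exp.2 (by linarith)
      _ = q := Real.exp_log hq0
  refine ((((E0.up).and (ofL (eventually_ge_atTop (16:ℝ)))).and (Ev.win (D := V ^ 2 - 1) (c := 1) (e := 1) one_pos
    one_pos)).and ((Ev.of_le hq0).and (lev_le V 0 hV0))).mono ?_
  rintro X δ hX1 h0 h1 ⟨⟨⟨hE, hL16⟩, hw⟩, hδq, -, hlev⟩ a ha0 ha1
  rw [Real.rpow_one, one_mul] at hw
  have hX0 : 0 < X := by linarith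
  set L := Real.log (1 / δ) with hLd
  have hr := root_le hL16
  set W := δ ^ (-(V ^ 2 - 1)) with hW
  have hW0 : 0 < W := Real.rpow_pos_of_pos h0 _
  set z : ℝ := lev V δ + (a + (R - 1)) with hz
  have hz0 : 0 ≤ z := by
    have h2 := (abs_le.1 hlev).1
    rw [add_zero] at h2
    nlinarith
  set φ : ℝ → ℝ := fun t => Real.posLog (Real.exp (-z) * mz δ t) with hφ
  have hφc : Continuous φ := Real.continuous_posLog.comp (continuous_const.mul (TMA.cont h1))
  have hφ0 : ∀ t, 0 ≤ φ t := fun t => Real.posLog_nonneg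
  have hG := lev_G (a := a + (R - 1)) hV0 h0 h1
  rw [← hLd] at hG
  have hL0 : 0 < √L := Real.sqrt_pos.2 (by linarith)
  have hdV := Real.rpow_pos_of_pos h0 (V ^ 2)
  have hdV' := Real.rpow_pos_of_pos h0 (-(V ^ 2))
  have hdV1 := Real.rpow_pos_of_pos h0 (V ^ 2 + 1)
  have e1 : Real.exp (-(2 * V * z)) * δ ^ (-(V ^ 2)) / √L = Real.exp (-(2 * V * (a + (R - 1)))) * δ ^ (V ^ 2) := by
    rw [div_eq_iff hL0.ne', Real.exp_neg, Real.exp_neg, inv_mul_eq_div, div_eq_iff (Real.exp_pos _).ne']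
    have h5 : δ ^ (-(V ^ 2)) = (Real.exp (2 * V * (a + (R - 1))))⁻¹ * (√L * Real.exp (2 * V * z) * δ ^ (V ^ 2)) := by
      rw [hG]
      rw [inv_mul_cancel_left₀ (Real.exp_pos _).ne']
    rw [h5]
    ring
  set B : ℝ := C * (Real.exp (-(2 * V * z)) * δ ^ (-(V ^ 2)) / √L + δ ^ (V ^ 2 + 1)) * (2 * X) with hB
  have hB0 : 0 ≤ B := by positivity
  have hint := plog_int h1 (by linarith) hB0 (hE (2 * X) (by linarith) z hz0)
  have hD0 : 0 < δ * Real.exp (-(2 * V * a)) := by positivity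
  set D : ℝ := δ * Real.exp (-(2 * V * a)) with hD
  have hδD : δ ≤ D := by
    have : 1 ≤ Real.exp (-(2 * V * a)) := Real.one_le_exp (by nlinarith)
    nlinarith
  have e2 : W * δ ^ (V ^ 2) = δ := by
    rw [hW, ← Real.rpow_add h0]
    rw [show -(V ^ 2 - 1) + V ^ 2 = 1 by ring, Real.rpow_one]
  have e3 : W * B ≤ ε * D * (ε * X) := by
    have k1 : W * (Real.exp (-(2 * V * z)) * δ ^ (-(V ^ 2)) / √L) ≤ D * q := by
      rw [e1]
      calc W * (Real.exp (-(2 * V * (a + (R - 1)))) * δ ^ (V ^ 2)) =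
          (W * δ ^ (V ^ 2)) * Real.exp (-(2 * V * a)) * Real.exp (-(2 * V * (R - 1))) := by
            rw [mul_assoc (W * δ ^ (V ^ 2)), ← Real.exp_add]
            rw [show -(2 * V * a) + -(2 * V * (R - 1)) = -(2 * V * (a + (R - 1))) by ring]
            ring
        _ ≤ _ := by
            rw [e2]
            exact mul_le_mul_of_nonneg_left hR2 hD0.le
    have k2 : W * δ ^ (V ^ 2 + 1) ≤ D * q := by
      rw [Real.rpow_add h0, Real.rpow_one, ← mul_assoc, e2]
      exact mul_le_mul hδD hδq h0.le hD0.le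
    calc W * B = C * (W * (Real.exp (-(2 * V * z)) * δ ^ (-(V ^ 2)) / √L) + W * δ ^ (V ^ 2 + 1)) * (2 * X) := by
          rw [hB]
          ring
      _ ≤ C * (D * q + D * q) * (2 * X) := by
          gcongr
      _ = ε * D * (ε * X) := by
          rw [hq]
          field_simp
          ring
  have hAc : Continuous (Av W φ) := Av_cont hφc
  have hA0 : ∀ t, 0 ≤ Av W φ t := by
    intro t
    have h5 := Av_mul hW0 φ t
    have h6 : 0 ≤ ∫ u in t..(t + W), φ u := intervalIntegral.integral_nonneg (by linarith) fun u _ => hφ0 u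
    rw [← h5] at h6
    exact (mul_nonneg_iff_of_pos_left hW0).1 h6
  have hsum : ∫ t in (0:ℝ)..X, Av W φ t ≤ B := by
    refine (win_ge hφc hφ0 hW0 0 X).trans ((prim_mono hφc hφ0 ?_).trans hint)
    linarith
  have hεD : 0 < ε * D := by positivity
  have hm := markov (g := fun t => W / (ε * D) * Av W φ t) (continuous_const.mul hAc)
    (fun t => mul_nonneg (by positivity) (hA0 t)) hX0.le (e := ε * X) (by
      rw [intervalIntegral.integral_const_mul, div_mul_eq_mul_div, div_le_iff₀ hεD]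
      calc W * ∫ t in (0:ℝ)..X, Av W φ t ≤ W * B := mul_le_mul_of_nonneg_left hsum hW0.le
        _ ≤ _ := e3
        _ = _ := by ring)
  refine (measure_mono ?_).trans hm
  rintro t ⟨t0, t1, t2⟩
  refine ⟨t0, t1, ?_⟩
  show 1 < W / (ε * D) * Av W φ t
  rw [div_mul_eq_mul_div, lt_div_iff₀ hεD, one_mul]
  rw [lt_div_iff₀ hD0] at t2
  refine t2.trans_le ?_
  rw [Av_mul hW0]
  have h7 := ind_int (V := V) (a := a + R) (t := t) (b := 1) h1 hW0
  rw [one_mul] at h7
  rw [← h7]
  refine intervalIntegral.integral_mono_on (by linarith) (ind_ii h1) (hφc.intervalIntegrable _ _) fun u _ => ?_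
  by_cases h : Real.exp (lev V δ + (a + R)) ≤ mz δ u
  · rw [Set.indicator_of_mem (show u ∈ {u : ℝ | Real.exp (lev V δ + (a + R)) ≤ mz δ u} from h)]
    have h3 : Real.exp 1 ≤ Real.exp (-z) * mz δ u := by
      calc Real.exp 1 = Real.exp (-z) * Real.exp (lev V δ + (a + R)) := by
            rw [← Real.exp_add]
            congr 1
            rw [hz]
            ring
        _ ≤ _ := mul_le_mul_of_nonneg_left h (Real.exp_pos _).le
    have h4 := Real.log_le_log (Real.exp_pos _) h3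
    rw [Real.log_exp] at h4
    exact h4.trans (le_max_right _ _)
  · rw [Set.indicator_of_notMem (show u ∉ {u : ℝ | Real.exp (lev V δ + (a + R)) ≤ mz δ u} from h)]
    exact hφ0 u

lemma cV_pos (V : ℝ) : 0 < cV V := by
  unfold cV
  have := akp V
  have := Real.pi_pos
  have : 0 < (2:ℝ) ^ (V ^ 2) := Real.rpow_pos_of_pos two_pos _
  positivity

lemma rho_ge {V δ : ℝ} (h0 : 0 < δ) (h1 : δ ≤ 1 / 16) : cV V ≤ rho V δ := by
  have ha := akp V
  have hpi := Real.sqrt_pos.2 Real.pi_pos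
  have h2 : 0 < (2:ℝ) ^ (V ^ 2) := Real.rpow_pos_of_pos two_pos _
  have hs := sq_pos' h0 h1
  have h3 : 1 / √Real.pi ≤ √(Real.log (1 / δ)) / Run7.h291.WL.sq δ := by
    rw [div_le_div_iff₀ hpi hs, one_mul]
    have := sq_L h0 h1
    linarith
  have e1 : cV V = akR V / 2 ^ (V ^ 2) * (1 / √Real.pi) := by
    unfold cV
    field_simp
  rw [e1]
  unfold rho
  exact mul_le_mul_of_nonneg_left h3 (by positivity)

lemma rho_le (V : ℝ) {e : ℝ} (he : 0 < e) : Ev fun _ δ => rho V δ ≤ cV V + e := by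
  have hc := cV_pos V
  have ha := akp V
  have hpi := Real.sqrt_pos.2 Real.pi_pos
  have h2 : 0 < (2:ℝ) ^ (V ^ 2) := Real.rpow_pos_of_pos two_pos _
  refine ((ofL (eventually_ge_atTop (2 + cV V / e)))).mono ?_
  intro X δ _ h0 h1 hL
  set L := Real.log (1 / δ) with hLd
  have hL1 : 1 < L := by
    have : 0 < cV V / e := by positivity
    linarith
  have hs := sq_pos' h0 h1
  have h3 : √Real.pi * √L * ((L - 1) / L) ≤ Run7.h291.WL.sq δ := by
    unfold Run7.h291.WL.sq
    refine Real.le_sqrt_of_sq_le ?_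
    rw [mul_pow, mul_pow, Real.sq_sqrt Real.pi_pos.le, Real.sq_sqrt (by linarith), mul_assoc]
    refine mul_le_mul_of_nonneg_left ?_ Real.pi_pos.le
    have e1 : Real.log (1 / (2 * δ)) = L - Real.log 2 := by
      rw [hLd, ← Real.log_div (by positivity) two_ne_zero]
      congr 1
      field_simp
    rw [e1]
    have h4 : L * ((L - 1) / L) ^ 2 = L - 2 + 1 / L := by
      field_simp
      ring
    have h5 : 1 / L ≤ 1 := by
      rw [div_le_one (by linarith)]
      linarith
    have h6 := Real.log_two_lt_d9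
    rw [h4]
    linarith
  have h4 : √L / Run7.h291.WL.sq δ ≤ 1 / √Real.pi * (1 + 1 / (L - 1)) := by
    have hL2 : 0 < L - 1 := by linarith
    have e1 : 1 / √Real.pi * (1 + 1 / (L - 1)) = L / (√Real.pi * (L - 1)) := by
      field_simp
      ring
    rw [e1, div_le_div_iff₀ hs (by positivity)]
    calc √L * (√Real.pi * (L - 1)) = L * (√Real.pi * √L * ((L - 1) / L)) := by
          field_simp
      _ ≤ _ := mul_le_mul_of_nonneg_left h3 (by linarith)
  have e1 : cV V = akR V / 2 ^ (V ^ 2) * (1 / √Real.pi) := by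
    unfold cV
    field_simp
  have h5 : rho V δ ≤ cV V * (1 + 1 / (L - 1)) := by
    rw [e1]
    unfold rho
    rw [mul_assoc]
    exact mul_le_mul_of_nonneg_left h4 (by positivity)
  have h6 : cV V * (1 / (L - 1)) ≤ e := by
    rw [mul_one_div, div_le_iff₀ (by linarith)]
    have h7 : cV V / e ≤ L - 1 := by linarith
    rw [div_le_iff₀ he] at h7
    linarith
  linarith

theorem t_CNT (hLLN : S_LLN) : S_CNT := by
  intro V hV ε hε
  have hV0 : 0 < V := by linarith
  have hcV := cV_pos V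
  set e : ℝ := min (1 / 4) (ε / (2 * cV V + 4)) with he
  have he0 : 0 < e := lt_min (by norm_num) (by positivity)
  have he1 : e ≤ 1 / 4 := min_le_left _ _
  have he2 : e * (2 * cV V + 4) ≤ ε := by
    have : e ≤ ε / (2 * cV V + 4) := min_le_right _ _
    rwa [le_div_iff₀ (by positivity)] at this
  have he3 : 3 * e ≤ ε := by nlinarith
  have hc : -(2 * V) ≠ 0 := by
    intro h
    linarith
  set η : ℝ := Real.log (1 + e / 2) / (2 * V) with hη
  have hη0 : 0 < η := div_pos (Real.log_pos (by linarith)) (by positivity)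
  have hηe : 2 * V * η = Real.log (1 + e / 2) := by
    rw [hη]
    field_simp
  have hx1 : Real.exp (2 * V * η) = 1 + e / 2 := by rw [hηe, Real.exp_log (by linarith)]
  have hx2 : 1 - e / 2 ≤ Real.exp (-(2 * V * η)) := by
    rw [Real.exp_neg, hx1]
    rw [le_inv_comm₀ (by linarith) (by linarith)]
    rw [inv_eq_one_div, le_div_iff₀ (by linarith)]
    nlinarith
  obtain ⟨R0, HR⟩ := high hV he0
  set R : ℝ := max R0 (max η (-(Real.log (e / 2)) / (2 * V))) with hR
  have hRη : η ≤ R := (le_max_left _ _).trans (le_max_right _ _)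
  have hR2 : Real.exp (-(2 * V * R)) ≤ e / 2 := by
    have h2 : -(Real.log (e / 2)) / (2 * V) ≤ R := (le_max_right _ _).trans (le_max_right _ _)
    rw [div_le_iff₀ (by positivity)] at h2
    calc Real.exp (-(2 * V * R)) ≤ Real.exp (Real.log (e / 2)) := Real.exp_le_exp.2 (by linarith)
      _ = _ := Real.exp_log (by positivity)
  have hI1 : 1 / (2 * V) - e ≤ ∫ x, gz (-(2 * V)) 0 η R x := by
    refine le_trans ?_ (gz_int_ge hη0 (by rw [zero_add]; exact hRη) hc)
    rw [zero_add, neg_mul, neg_mul, div_neg, ← neg_div, neg_sub, le_div_iff₀ (by positivity)]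
    have h2 : (1 / (2 * V) - e) * (2 * V) = 1 - e * (2 * V) := by
      field_simp
    rw [h2]
    nlinarith
  have hI2 : ∫ x, gz (-(2 * V)) (-η) η R x ≤ 1 / (2 * V) + e := by
    refine (gz_int_le hη0 (by linarith) hc).trans ?_
    rw [neg_mul, neg_mul_neg, div_neg, ← neg_div, neg_sub, div_le_iff₀ (by positivity), hx1]
    have h2 : (1 / (2 * V) + e) * (2 * V) = 1 + e * (2 * V) := by
      field_simp
    rw [h2]
    have := Real.exp_pos (-(2 * V * (R + 1)))
    nlinarith
  obtain ⟨a1, H1⟩ := hLLN V hV _ _ _ (gz_TF (c := -(2 * V)) (s := 0) (R := R) hη0) e he0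
  obtain ⟨a2, H2⟩ := hLLN V hV _ _ _ (gz_TF (c := -(2 * V)) (s := -η) (R := R) hη0) e he0
  refine ⟨min 0 (min a1 a2), (((H1.and H2).and (HR R (le_max_left _ _))).and (rho_le V he0)).mono ?_⟩
  rintro X δ hX1 h0 h1 ⟨⟨⟨H1, H2⟩, H3⟩, hρ⟩ a ha0 ha1
  have hX0 : 0 < X := by linarith
  have q0 : a ≤ 0 := ha0.trans (min_le_left _ _)
  have q1 : a ≤ a1 := ha0.trans ((min_le_right _ _).trans (min_le_left _ _))
  have q2 : a ≤ a2 := ha0.trans ((min_le_right _ _).trans (min_le_right _ _))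
  have m1 := H1 a q1 ha1
  have m2 := H2 a q2 ha1
  have m3 := H3 a q0 ha1
  have hρ1 := rho_ge (V := V) h0 h1
  have hD0 : 0 < δ * Real.exp (-(2 * V * a)) := by positivity
  refine (measure_mono ?_).trans ((measure_union_le _ _).trans ((add_le_add ((measure_union_le _ _).trans
    (add_le_add m1 m2)) m3).trans ?_))
  · rintro t ⟨t0, t1, t2⟩
    by_contra hcon
    rw [Set.mem_union, Set.mem_union, not_or, not_or] at hcon
    obtain ⟨⟨c1, c2⟩, c3⟩ := hcon
    have d1 : |Av (δ ^ (-(V ^ 2 - 1))) (fun u => FS V (gz (-(2 * V)) 0 η R) δ (lev V δ + a) u) t -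
        ∫ x, gz (-(2 * V)) 0 η R x| ≤ e := by
      by_contra h
      exact c1 ⟨t0, t1, not_le.1 h⟩
    have d2 : |Av (δ ^ (-(V ^ 2 - 1))) (fun u => FS V (gz (-(2 * V)) (-η) η R) δ (lev V δ + a) u) t -
        ∫ x, gz (-(2 * V)) (-η) η R x| ≤ e := by
      by_contra h
      exact c2 ⟨t0, t1, not_le.1 h⟩
    have d3 : volume.real (LV V (a + R) δ t) / (δ * Real.exp (-(2 * V * a))) ≤ e := by
      by_contra h
      exact c3 ⟨t0, t1, not_le.1 h⟩
    have l1 := amt_lo (V := V) (R := R) (a := a) (t := t) hV0 hη0 h0 h1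
    have l2 := amt_hi (V := V) (R := R) (a := a) (t := t) hV0 hη0 h0 h1
    set D := δ * Real.exp (-(2 * V * a)) with hD
    set A1 := Av (δ ^ (-(V ^ 2 - 1))) (fun u => FS V (gz (-(2 * V)) 0 η R) δ (lev V δ + a) u) t with hA1
    set A2 := Av (δ ^ (-(V ^ 2 - 1))) (fun u => FS V (gz (-(2 * V)) (-η) η R) δ (lev V δ + a) u) t with hA2
    have b1 := (abs_le.1 d1).1
    have b2 := (abs_le.1 d2).2
    have hv : 0 < 1 / (2 * V) := by positivity
    have hv1 : 1 / (2 * V) ≤ 1 := by
      rw [div_le_one (by positivity)]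
      linarith
    have hdiv : cV V / (2 * V) = cV V * (1 / (2 * V)) := by ring
    have f1 : rho V δ * A1 ≤ volume.real (LV V a δ t) / D := by
      rw [le_div_iff₀ hD0]
      linarith
    have f2 : volume.real (LV V a δ t) / D ≤ rho V δ * A2 + e := by
      rw [div_le_iff₀ hD0] at d3 ⊢
      nlinarith
    have hA1nn : 0 ≤ A1 := by
      have hW : 0 < δ ^ (-(V ^ 2 - 1)) := Real.rpow_pos_of_pos h0 _
      have h5 := Av_mul hW (fun u => FS V (gz (-(2 * V)) 0 η R) δ (lev V δ + a) u) t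
      have h6 : 0 ≤ ∫ u in t..(t + δ ^ (-(V ^ 2 - 1))), FS V (gz (-(2 * V)) 0 η R) δ (lev V δ + a) u :=
        intervalIntegral.integral_nonneg (by linarith) fun u _ => FS_nn (gz_nn _ _ _ _) h0.le _ _
      rw [← h5] at h6
      exact (mul_nonneg_iff_of_pos_left hW).1 h6
    have g1 : cV V / (2 * V) - ε ≤ volume.real (LV V a δ t) / D := by
      refine le_trans ?_ f1
      have : cV V * A1 ≤ rho V δ * A1 := mul_le_mul_of_nonneg_right hρ1 hA1nn
      refine le_trans ?_ this
      have h7 : 1 / (2 * V) - 2 * e ≤ A1 := by linarith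
      have h8 := mul_le_mul_of_nonneg_left h7 hcV.le
      rw [hdiv]
      nlinarith
    have g2 : volume.real (LV V a δ t) / D ≤ cV V / (2 * V) + ε := by
      refine f2.trans ?_
      have h7 : A2 ≤ 1 / (2 * V) + 2 * e := by linarith
      have h8 : rho V δ * A2 ≤ (cV V + e) * (1 / (2 * V) + 2 * e) :=
        (mul_le_mul_of_nonneg_left h7 (by linarith)).trans (mul_le_mul_of_nonneg_right hρ (by positivity))
      rw [hdiv]
      nlinarith
    have : |volume.real (LV V a δ t) / D - cV V / (2 * V)| ≤ ε := by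
      rw [abs_le]
      constructor <;> linarith
    linarith
  · rw [← ENNReal.ofReal_add (by positivity) (by positivity), ← ENNReal.ofReal_add (by positivity) (by positivity)]
    refine ENNReal.ofReal_le_ofReal ?_
    nlinarith

end Run7.h701.WG3
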